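import Pool.Agent.Work.MP_510402_an.Interface

/-!
# MP_510402_an, blocks TEL, FRK, APF: failure of the approximation property
-/

set_option autoImplicit false

namespace Pool.HAP

open scoped BigOperators InnerProductSpace

namespace APF

open Filter Topology

theorem coord {n m : ℕ} (M : Eu n →ₗ[ℝ] Eu m) (w : Eu n) (a : Fin m) :
    (M w) a = ∑ b, w b * (M (EuclideanSpace.single b 1)) a := by
  have h : w = ∑ b, (w b) • (EuclideanSpace.single b (1 : ℝ)) := by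
    ext i
    simp [Pi.single_apply]
  conv_lhs => rw [h, map_sum]
  simp

theorem gen {n m L : ℕ} (M : Eu n →ₗ[ℝ] Eu m) (x : Fin L → Eu m) (w : Fin L → Eu n) :
    ∑ l, ⟪x l, M (w l)⟫_ℝ
      = ∑ a, ∑ b, (M (EuclideanSpace.single b 1)) a * ∑ l, x l a * w l b := by
  have h0 : ∀ l, ⟪x l, M (w l)⟫_ℝ
      = ∑ a, ∑ b, (M (EuclideanSpace.single b 1)) a * (x l a * w l b) := by
    intro l
    rw [PiLp.inner_apply]
    refine Finset.sum_congr rfl (fun a _ => ?_)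
    rw [coord M (w l) a]
    simp only [RCLike.inner_apply, conj_trivial]
    rw [Finset.sum_mul]
    refine Finset.sum_congr rfl (fun b _ => ?_)
    ring
  simp_rw [h0]
  rw [Finset.sum_comm]
  refine Finset.sum_congr rfl (fun a _ => ?_)
  rw [Finset.sum_comm]
  refine Finset.sum_congr rfl (fun b _ => ?_)
  rw [Finset.mul_sum]

theorem gen_diag {n L : ℕ} (M : Eu n →ₗ[ℝ] Eu n) (x : Fin L → Eu n) (c : ℝ)
    (h : ∀ a a', ∑ l, x l a * x l a' = if a = a' then c else 0) :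
    ∑ l, ⟪x l, M (x l)⟫_ℝ = c * ∑ a, (M (EuclideanSpace.single a 1)) a := by
  rw [gen, Finset.mul_sum]
  refine Finset.sum_congr rfl (fun a _ => ?_)
  rw [Finset.sum_eq_single a]
  · rw [h, if_pos rfl, mul_comm]
  · intro b _ hb
    rw [h, if_neg (Ne.symm hb), mul_zero]
  · intro hh; exact absurd (Finset.mem_univ a) hh

theorem gen_zero {n m L : ℕ} (M : Eu n →ₗ[ℝ] Eu m) (x : Fin L → Eu m) (w : Fin L → Eu n)
    (h : ∀ a b, ∑ l, x l a * w l b = 0) :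
    ∑ l, ⟪x l, M (w l)⟫_ℝ = 0 := by
  rw [gen]
  refine Finset.sum_eq_zero (fun a _ => Finset.sum_eq_zero (fun b _ => ?_))
  rw [h, mul_zero]

theorem stmt_Tel : Stmt_Tel := by
  intro Z _ _ Fr io pr T j
  have hL : (0 : ℝ) < (Fr.Lc j : ℝ) := by
    have := Fr.L_pos j
    exact_mod_cast this
  have e1 : ∑ l, ⟪Fr.y j l, pr j (T (io j (Fr.y j l)))⟫_ℝ
      = (Fr.Lc j : ℝ) / (Fr.N j : ℝ) * trj (io j) (pr j) T :=
    gen_diag ((pr j).comp (T.comp (io j))) (Fr.y j) _ (Fr.yy j)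
  have e2 : ∑ l, ⟪Fr.z j l, pr (j + 1) (T (io (j + 1) (Fr.z j l)))⟫_ℝ
      = (Fr.Lc j : ℝ) / (Fr.N (j + 1) : ℝ) * trj (io (j + 1)) (pr (j + 1)) T :=
    gen_diag ((pr (j + 1)).comp (T.comp (io (j + 1)))) (Fr.z j) _ (Fr.zz j)
  have e3 : ∑ l, ⟪Fr.y j l, pr j (T (io (j + 1) (Fr.z j l)))⟫_ℝ = 0 :=
    gen_zero ((pr j).comp (T.comp (io (j + 1)))) (Fr.y j) (Fr.z j) (Fr.yz j)
  have e4 : ∑ l, ⟪Fr.z j l, pr (j + 1) (T (io j (Fr.y j l)))⟫_ℝ = 0 := by
    refine gen_zero ((pr (j + 1)).comp (T.comp (io j))) (Fr.z j) (Fr.y j) (fun a b => ?_)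
    rw [← Fr.yz j b a]
    exact Finset.sum_congr rfl (fun l _ => mul_comm _ _)
  have e5 : ∑ l, (⟪Fr.y j l, pr j (T (io j (Fr.y j l) + io (j + 1) (Fr.z j l)))⟫_ℝ
      - ⟪Fr.z j l, pr (j + 1) (T (io j (Fr.y j l) + io (j + 1) (Fr.z j l)))⟫_ℝ)
      = (Fr.Lc j : ℝ) / (Fr.N j : ℝ) * trj (io j) (pr j) T
        - (Fr.Lc j : ℝ) / (Fr.N (j + 1) : ℝ) * trj (io (j + 1)) (pr (j + 1)) T := by
    simp_rw [map_add, inner_add_right]
    rw [Finset.sum_sub_distrib, Finset.sum_add_distrib, Finset.sum_add_distrib, e1, e2, e3, e4]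
    ring
  rw [e5]
  field_simp

theorem io_le {Z : Type} [NormedAddCommGroup Z] [NormedSpace ℝ Z] {n j : ℕ}
    (io : Eu n →ₗ[ℝ] Z) (h : ∀ a, ‖io a‖ ^ 2 ≤ 2 ^ (j + 1) * ‖a‖ ^ 2) (a : Eu n) :
    ‖io a‖ ≤ 2 ^ (j + 1) * ‖a‖ := by
  have h1 : (1 : ℝ) ≤ 2 ^ (j + 1) := one_le_pow₀ (by norm_num)
  have h2 : ‖io a‖ ^ 2 ≤ (2 ^ (j + 1) * ‖a‖) ^ 2 := by
    refine (h a).trans ?_
    rw [mul_pow]
    apply mul_le_mul_of_nonneg_right _ (sq_nonneg _)
    nlinarith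
  exact (sq_le_sq₀ (norm_nonneg _) (by positivity)).mp h2

theorem trj_rank {Z : Type} [NormedAddCommGroup Z] [NormedSpace ℝ Z] {n r : ℕ}
    (io : Eu n →ₗ[ℝ] Z) (pr : Z →ₗ[ℝ] Eu n) (T : Z →ₗ[ℝ] Z) (ψ : Fin r → Z →ₗ[ℝ] ℝ)
    (v : Fin r → Z) (h : ∀ x, T x = ∑ i, ψ i x • v i) :
    trj io pr T = ∑ i, ψ i (io (pr (v i))) := by
  have h1 : ∀ i, ψ i (io (pr (v i)))
      = ∑ a, (pr (v i)) a * ψ i (io (EuclideanSpace.single a 1)) := by
    intro i
    have h : pr (v i) = ∑ b, ((pr (v i)) b) • (EuclideanSpace.single b (1 : ℝ)) := by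
      ext i
      simp [Pi.single_apply]
    conv_lhs => rw [h, map_sum, map_sum]
    refine Finset.sum_congr rfl (fun a _ => ?_)
    rw [map_smul, map_smul, smul_eq_mul]
  simp_rw [h1]
  rw [Finset.sum_comm]
  unfold trj
  refine Finset.sum_congr rfl (fun a _ => ?_)
  rw [h, map_sum]
  simp [mul_comm]

theorem tend : Tendsto (fun J : ℕ => (2 : ℝ) ^ (J + 1) / 2 ^ (2 ^ J)) atTop (𝓝 0) := by
  have h1 : Tendsto (fun n : ℕ => (n : ℝ) * (1 / 2 : ℝ) ^ n) atTop (𝓝 0) :=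
    tendsto_self_mul_const_pow_of_lt_one (by norm_num) (by norm_num)
  have h2 : Tendsto (fun J : ℕ => 2 ^ J) atTop (atTop : Filter ℕ) :=
    tendsto_pow_atTop_atTop_of_one_lt (by norm_num)
  have h3 := (h1.comp h2).const_mul 2
  rw [mul_zero] at h3
  refine h3.congr (fun J => ?_)
  simp only [Function.comp]
  rw [div_pow, one_pow]
  push_cast
  ring

theorem stmt_Frk : Stmt_Frk := by
  intro Z _ _ Fr io pr hpr hio T hfin
  -- decomposition of `T`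
  obtain ⟨r, ψ, v, hT⟩ : ∃ (r : ℕ) (ψ : Fin r → Z →L[ℝ] ℝ) (v : Fin r → Z),
      ∀ x, T x = ∑ i, ψ i x • v i := by
    have := hfin
    let R := LinearMap.range (T : Z →ₗ[ℝ] Z)
    let b := Module.finBasis ℝ R
    let TR : Z →L[ℝ] R := T.codRestrict R (fun x => ⟨x, rfl⟩)
    refine ⟨Module.finrank ℝ R, fun i => (LinearMap.toContinuousLinearMap (b.coord i)).comp TR,
      fun i => (b i : Z), ?_⟩
    intro x
    have h := b.sum_repr (TR x)
    have h2 := congrArg (Submodule.subtype R) h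
    rw [map_sum] at h2
    simp only [map_smul, Submodule.subtype_apply] at h2
    exact h2.symm
  have hN : ∀ J, (0 : ℝ) < 2 ^ (2 ^ J) := fun J => by positivity
  have hN2 : ∀ J, (2 : ℝ) ^ (2 ^ J) ≤ (Fr.N J : ℝ) := fun J => by exact_mod_cast Fr.N_ge J
  have hb : ∀ J, |trj (io J) (pr J) (T : Z →ₗ[ℝ] Z) / (Fr.N J : ℝ)|
      ≤ (∑ i, ‖ψ i‖ * ‖v i‖) * (2 ^ (J + 1) / 2 ^ (2 ^ J)) := by
    intro J
    rw [trj_rank (io J) (pr J) (T : Z →ₗ[ℝ] Z) (fun i => (ψ i : Z →ₗ[ℝ] ℝ)) v hT]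
    have h1 : |∑ i, (ψ i : Z →ₗ[ℝ] ℝ) (io J (pr J (v i)))|
        ≤ (∑ i, ‖ψ i‖ * ‖v i‖) * 2 ^ (J + 1) := by
      refine (Finset.abs_sum_le_sum_abs _ _).trans ?_
      rw [Finset.sum_mul]
      refine Finset.sum_le_sum (fun i _ => ?_)
      have h2 : |(ψ i : Z →ₗ[ℝ] ℝ) (io J (pr J (v i)))| ≤ ‖ψ i‖ * ‖io J (pr J (v i))‖ :=
        (ψ i).le_opNorm _
      have h3 := io_le (io J) (hio J) (pr J (v i))
      have h4 := hpr J (v i)
      refine h2.trans ?_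
      rw [mul_assoc]
      apply mul_le_mul_of_nonneg_left _ (norm_nonneg _)
      have h5 : (2 : ℝ) ^ (J + 1) * ‖pr J (v i)‖ ≤ 2 ^ (J + 1) * ‖v i‖ :=
        mul_le_mul_of_nonneg_left h4 (by positivity)
      linarith
    have hS : 0 ≤ (∑ i, ‖ψ i‖ * ‖v i‖) * 2 ^ (J + 1) := by positivity
    rw [abs_div, abs_of_pos (lt_of_lt_of_le (hN J) (hN2 J)), mul_div_assoc']
    exact div_le_div₀ hS h1 (hN J) (hN2 J)
  have ht := tend.const_mul (∑ i, ‖ψ i‖ * ‖v i‖)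
  rw [mul_zero] at ht
  exact squeeze_zero_norm (fun J => by rw [Real.norm_eq_abs]; exact hb J) ht

theorem cpt {Z : Type} [NormedAddCommGroup Z] (F : ℕ → Set Z) (hF : ∀ j, (F j).Finite)
    (r : ℕ → ℝ) (hr : Tendsto r atTop (𝓝 0)) (h : ∀ j, ∀ x ∈ F j, ‖x‖ ≤ r j) :
    IsCompact (insert 0 (⋃ j, F j)) := by
  rw [isCompact_iff_ultrafilter_le_nhds]
  intro f hf
  by_cases hc : (f : Filter Z) ≤ 𝓝 0
  · exact ⟨0, Set.mem_insert _ _, hc⟩
  · rw [Metric.nhds_basis_ball.ge_iff] at hc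
    push Not at hc
    obtain ⟨ε, hε, hb⟩ := hc
    obtain ⟨J, hJ⟩ := eventually_atTop.mp (hr.eventually (gt_mem_nhds hε))
    have hfin : (insert 0 (⋃ j, F j) \ Metric.ball 0 ε).Finite := by
      apply ((Set.finite_lt_nat J).biUnion (fun j _ => hF j)).subset
      rintro x ⟨hx, hxb⟩
      rw [mem_ball_zero_iff, not_lt] at hxb
      rcases hx with hx | hx
      · rw [hx, norm_zero] at hxb
        exact absurd hxb (not_le.mpr hε)
      · obtain ⟨j, hj⟩ := Set.mem_iUnion.mp hx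
        refine Set.mem_iUnion₂.mpr ⟨j, ?_, hj⟩
        show j < J
        by_contra hh
        have h1 := hJ j (not_lt.mp hh)
        have h2 := h j x hj
        linarith
    have hmem : (insert 0 (⋃ j, F j) \ Metric.ball 0 ε) ∈ f :=
      Filter.inter_mem (Filter.le_principal_iff.mp hf) (Ultrafilter.compl_mem_iff_notMem.mpr hb)
    obtain ⟨x, hx, hfx⟩ := isCompact_iff_ultrafilter_le_nhds.mp hfin.isCompact f
      (Filter.le_principal_iff.mpr hmem)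
    exact ⟨x, hx.1, hfx⟩

theorem term_bd (D δ W : ℝ) (j : ℕ) (hδ : 0 < δ) (hD : D ^ 2 * 2 ^ j ≤ 3 * W ^ 2) (hW0 : 0 ≤ W)
    (hW : (4 / 5) ^ j * W ≤ δ) : |D| ≤ 2 * δ * (9 / 10) ^ j := by
  have h1 : ((4 / 5 : ℝ) ^ j * W) ^ 2 ≤ δ ^ 2 := by
    apply pow_le_pow_left₀ (by positivity) hW
  have h2 : D ^ 2 * (32 / 25) ^ j ≤ 3 * δ ^ 2 := by
    have e : (32 / 25 : ℝ) ^ j = 2 ^ j * ((4 / 5) ^ j) ^ 2 := by
      rw [← pow_mul, mul_comm j 2, pow_mul, ← mul_pow]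
      norm_num
    rw [e, ← mul_assoc]
    calc D ^ 2 * 2 ^ j * ((4 / 5) ^ j) ^ 2 ≤ 3 * W ^ 2 * ((4 / 5) ^ j) ^ 2 :=
          mul_le_mul_of_nonneg_right hD (by positivity)
      _ = 3 * ((4 / 5 : ℝ) ^ j * W) ^ 2 := by ring
      _ ≤ 3 * δ ^ 2 := by linarith
  have h3 : D ^ 2 ≤ (2 * δ * (9 / 10) ^ j) ^ 2 := by
    have e1 : (1 : ℝ) ≤ ((32 / 25) * (81 / 100)) ^ j := one_le_pow₀ (by norm_num)
    have e2 : ((9 / 10 : ℝ) ^ j) ^ 2 = (81 / 100) ^ j := by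
      rw [← pow_mul, mul_comm j 2, pow_mul]; norm_num
    calc D ^ 2 ≤ D ^ 2 * ((32 / 25) * (81 / 100)) ^ j :=
          le_mul_of_one_le_right (sq_nonneg _) e1
      _ = D ^ 2 * (32 / 25) ^ j * (81 / 100) ^ j := by rw [mul_pow]; ring
      _ ≤ 3 * δ ^ 2 * (81 / 100) ^ j := mul_le_mul_of_nonneg_right h2 (by positivity)
      _ ≤ 4 * δ ^ 2 * (81 / 100) ^ j := by
          apply mul_le_mul_of_nonneg_right _ (by positivity)
          nlinarith [sq_nonneg δ]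
      _ = (2 * δ * (9 / 10) ^ j) ^ 2 := by rw [mul_pow, e2]; ring
  exact abs_le_of_sq_le_sq h3 (by positivity)

theorem ind (t : ℕ → ℝ) (δ : ℝ) (h0 : |t 0| ≤ δ)
    (h : ∀ j, |t j - t (j + 1)| ≤ 2 * δ * (9 / 10) ^ j) (J : ℕ) :
    |t J| ≤ δ + 20 * δ * (1 - (9 / 10) ^ J) := by
  induction J with
  | zero => simpa using h0
  | succ J ih =>
    have h1 := h J
    have h2 : |t (J + 1)| ≤ |t J| + |t J - t (J + 1)| := by
      have := abs_sub_abs_le_abs_sub (t (J + 1)) (t J)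
      rw [abs_sub_comm] at this
      linarith
    have e : (9 / 10 : ℝ) ^ (J + 1) = 9 / 10 * (9 / 10) ^ J := by rw [pow_succ]; ring
    rw [e]
    nlinarith

theorem coord_le {n : ℕ} (v : Eu n) (a : Fin n) : |v a| ≤ ‖v‖ := by
  have := PiLp.norm_apply_le v a
  rwa [Real.norm_eq_abs] at this

theorem stmt_APF (hTel : Stmt_Tel) (hFrk : Stmt_Frk) : Stmt_APF := by
  intro Z _ _ Fr io pr hpi hpr hio hu hf hAP
  let u : ∀ j, Fin (Fr.Lc j) → Z := fun j l => io j (Fr.y j l) + io (j + 1) (Fr.z j l)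
  let F : ℕ → Set Z := fun j => Set.range (fun l => ((4 / 5 : ℝ) ^ j) • u j l)
  have hK : IsCompact (insert 0 (⋃ j, F j) ∪
      Set.range (fun a => io 0 (EuclideanSpace.single a (1 : ℝ)))) := by
    apply IsCompact.union
    · refine cpt F (fun j => Set.finite_range _) (fun j => (4 / 5 : ℝ) ^ j * 4) ?_ ?_
      · have := (tendsto_pow_atTop_nhds_zero_of_lt_one (r := (4 / 5 : ℝ)) (by norm_num)
          (by norm_num)).mul_const 4
        simpa using this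
      · rintro j x ⟨l, rfl⟩
        simp only
        rw [norm_smul, Real.norm_of_nonneg (by positivity)]
        exact mul_le_mul_of_nonneg_left (hu j l) (by positivity)
    · exact (Set.finite_range _).isCompact
  obtain ⟨T, hfin, hT⟩ := hAP _ hK (1 / 42) (by norm_num)
  let R : Z →ₗ[ℝ] Z := (T : Z →ₗ[ℝ] Z) - LinearMap.id
  have hR : ∀ x, R x = T x - x := fun x => rfl
  have hN0 : ∀ J, (0 : ℝ) < (Fr.N J : ℝ) := fun J => by
    have := Fr.N_ge J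
    have h2 : 0 < 2 ^ (2 ^ J) := by positivity
    exact_mod_cast lt_of_lt_of_le h2 this
  have hL0 : ∀ J, (0 : ℝ) < (Fr.Lc J : ℝ) := fun J => by
    exact_mod_cast Fr.L_pos J
  let t : ℕ → ℝ := fun j => trj (io j) (pr j) R / (Fr.N j : ℝ)
  have ht0 : |t 0| ≤ 1 / 42 := by
    show |trj (io 0) (pr 0) R / (Fr.N 0 : ℝ)| ≤ 1 / 42
    rw [abs_div, abs_of_pos (hN0 0), div_le_iff₀ (hN0 0)]
    unfold trj
    refine (Finset.abs_sum_le_sum_abs _ _).trans ?_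
    refine (Finset.sum_le_card_nsmul _ _ (1 / 42) (fun a _ => ?_)).trans ?_
    · refine (coord_le _ a).trans ((hpr 0 _).trans ?_)
      rw [hR]
      exact (hT _ (Or.inr ⟨a, rfl⟩)).le
    · simp [mul_comm]
  have hts : ∀ j, |t j - t (j + 1)| ≤ 2 * (1 / 42) * (9 / 10) ^ j := by
    intro j
    have h1 := hTel Z Fr io pr R j
    show |trj (io j) (pr j) R / (Fr.N j : ℝ)
      - trj (io (j + 1)) (pr (j + 1)) R / (Fr.N (j + 1) : ℝ)| ≤ _
    rw [← h1, abs_div, abs_of_pos (hL0 j), div_le_iff₀ (hL0 j)]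
    refine (Finset.abs_sum_le_sum_abs _ _).trans ?_
    refine (Finset.sum_le_card_nsmul _ _ (2 * (1 / 42) * (9 / 10) ^ j) (fun l _ => ?_)).trans ?_
    · refine term_bd _ (1 / 42) ‖R (u j l)‖ j (by norm_num) (hf j l (R (u j l)))
        (norm_nonneg _) ?_
      have h2 := hT (((4 / 5 : ℝ) ^ j) • u j l)
        (Or.inl (Or.inr (Set.mem_iUnion.mpr ⟨j, ⟨l, rfl⟩⟩)))
      rw [← hR, map_smul, norm_smul, Real.norm_of_nonneg (by positivity)] at h2
      exact h2.le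
    · simp [mul_comm]
  have hbd := ind t (1 / 42) ht0 hts
  have hlim := hFrk Z Fr io pr hpr hio T hfin
  have htr : ∀ J, trj (io J) (pr J) (T : Z →ₗ[ℝ] Z) / (Fr.N J : ℝ) = t J + 1 := by
    intro J
    have h1 : trj (io J) (pr J) R = trj (io J) (pr J) (T : Z →ₗ[ℝ] Z) - (Fr.N J : ℝ) := by
      unfold trj
      have h2 : ∀ a : Fin (Fr.N J), (pr J (R (io J (EuclideanSpace.single a 1)))) a
          = (pr J ((T : Z →ₗ[ℝ] Z) (io J (EuclideanSpace.single a 1)))) a - 1 := by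
        intro a
        have h3 : R (io J (EuclideanSpace.single a 1))
          = (T : Z →ₗ[ℝ] Z) (io J (EuclideanSpace.single a 1))
            - io J (EuclideanSpace.single a 1) := rfl
        rw [h3, map_sub, hpi]
        simp
      simp_rw [h2]
      rw [Finset.sum_sub_distrib]
      simp
    show _ = trj (io J) (pr J) R / (Fr.N J : ℝ) + 1
    rw [h1, sub_div, div_self (hN0 J).ne']
    ring
  have hev := (hlim.eventually (gt_mem_nhds (show (0 : ℝ) < 1 / 3 by norm_num))).exists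
  obtain ⟨J, hJ⟩ := hev
  rw [htr J] at hJ
  have h1 := hbd J
  have h2 : (0 : ℝ) < (9 / 10) ^ J := by positivity
  have h3 := (abs_le.mp h1).1
  nlinarith

end APF

theorem stmt_Tel : Stmt_Tel := APF.stmt_Tel

theorem stmt_Frk : Stmt_Frk := APF.stmt_Frk

theorem stmt_APF (hTel : Stmt_Tel) (hFrk : Stmt_Frk) : Stmt_APF := APF.stmt_APF hTel hFrk

end Pool.HAP
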