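import Pool.Agent.Work.MP_510402_an.Interface

/-!
# MP_510402_an, block EMB: the subspace `Z`
-/

set_option autoImplicit false

namespace Pool.HAP

open scoped BigOperators InnerProductSpace

namespace EMB

/-- First part of a vector. -/
noncomputable def fst (Fr : Frames) (j : ℕ) :
    EuclideanSpace ℝ (Ix Fr j) →ₗ[ℝ] Eu (Fr.N j) where
  toFun x := WithLp.toLp 2 (fun a => x (Sum.inl a))
  map_add' x y := by ext a; simp
  map_smul' c x := by ext a; simp

/-- Second part of a vector. -/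
noncomputable def snd (Fr : Frames) (j : ℕ) :
    EuclideanSpace ℝ (Ix Fr j) →ₗ[ℝ] Eu (Fr.N (j + 1)) where
  toFun x := WithLp.toLp 2 (fun a => x (Sum.inr a))
  map_add' x y := by ext a; simp
  map_smul' c x := by ext a; simp

variable {Fr : Frames}

@[simp] theorem fst_pair {j : ℕ} (a : Eu (Fr.N j)) (b : Eu (Fr.N (j + 1))) :
    fst Fr j (pair a b) = a := by
  ext i; simp [fst, pair]

@[simp] theorem snd_pair {j : ℕ} (a : Eu (Fr.N j)) (b : Eu (Fr.N (j + 1))) :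
    snd Fr j (pair a b) = b := by
  ext i; simp [snd, pair]

theorem norm_sq_eq {j : ℕ} (x : EuclideanSpace ℝ (Ix Fr j)) :
    ‖x‖ ^ 2 = ‖fst Fr j x‖ ^ 2 + ‖snd Fr j x‖ ^ 2 := by
  rw [EuclideanSpace.norm_sq_eq, EuclideanSpace.norm_sq_eq, EuclideanSpace.norm_sq_eq,
    Fintype.sum_sum_type]
  rfl

theorem inner_eq {j : ℕ} (x y : EuclideanSpace ℝ (Ix Fr j)) :
    ⟪x, y⟫_ℝ = ⟪fst Fr j x, fst Fr j y⟫_ℝ + ⟪snd Fr j x, snd Fr j y⟫_ℝ := by
  rw [PiLp.inner_apply, PiLp.inner_apply, PiLp.inner_apply, Fintype.sum_sum_type]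
  rfl

theorem fst_le {j : ℕ} (x : EuclideanSpace ℝ (Ix Fr j)) : ‖fst Fr j x‖ ≤ ‖x‖ := by
  have h := norm_sq_eq x
  have h2 : ‖fst Fr j x‖ ^ 2 ≤ ‖x‖ ^ 2 := by nlinarith [sq_nonneg ‖snd Fr j x‖]
  exact (sq_le_sq₀ (norm_nonneg _) (norm_nonneg _)).mp h2

theorem snd_le {j : ℕ} (x : EuclideanSpace ℝ (Ix Fr j)) : ‖snd Fr j x‖ ≤ ‖x‖ := by
  have h := norm_sq_eq x
  have h2 : ‖snd Fr j x‖ ^ 2 ≤ ‖x‖ ^ 2 := by nlinarith [sq_nonneg ‖fst Fr j x‖]
  exact (sq_le_sq₀ (norm_nonneg _) (norm_nonneg _)).mp h2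

theorem pair_add {j : ℕ} (a a' : Eu (Fr.N j)) (b b' : Eu (Fr.N (j + 1))) :
    (pair (a + a') (b + b') : EuclideanSpace ℝ (Ix Fr j)) = pair a b + pair a' b' := by
  ext i; cases i <;> simp [pair]

theorem pair_smul {j : ℕ} (c : ℝ) (a : Eu (Fr.N j)) (b : Eu (Fr.N (j + 1))) :
    (pair (c • a) (c • b) : EuclideanSpace ℝ (Ix Fr j)) = c • pair a b := by
  ext i; cases i <;> simp [pair]

theorem pair_zero {j : ℕ} :
    (pair (0 : Eu (Fr.N j)) (0 : Eu (Fr.N (j + 1))) : EuclideanSpace ℝ (Ix Fr j)) = 0 := by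
  ext i; cases i <;> simp [pair]

/-- Transport. -/
noncomputable def tr (Fr : Frames) (j i : ℕ) : Eu (Fr.N j) →ₗ[ℝ] Eu (Fr.N i) :=
  if h : j = i then (h ▸ LinearMap.id) else 0

theorem tr_self (j : ℕ) (a : Eu (Fr.N j)) : tr Fr j j a = a := by
  simp [tr]

theorem tr_ne {j i : ℕ} (h : j ≠ i) (a : Eu (Fr.N j)) : tr Fr j i a = 0 := by
  simp [tr, h]

variable (S : SData)

/-- The identity map as a linear map. -/
def unL (j : ℕ) : S.XJ j →ₗ[ℝ] EuclideanSpace ℝ (Ix S.Fr j) where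
  toFun x := NS.un _ _ x
  map_add' _ _ := rfl
  map_smul' _ _ := rfl

/-- Evaluation. -/
def ev (j : ℕ) : S.X →ₗ[ℝ] S.XJ j where
  toFun x := x j
  map_add' _ _ := rfl
  map_smul' _ _ := rfl

/-- First part of the `j`-th component. -/
noncomputable def P (j : ℕ) : S.X →ₗ[ℝ] Eu (S.Fr.N j) :=
  (fst S.Fr j).comp ((unL S j).comp (ev S j))

/-- Second part of the `j`-th component. -/
noncomputable def Q (j : ℕ) : S.X →ₗ[ℝ] Eu (S.Fr.N (j + 1)) :=
  (snd S.Fr j).comp ((unL S j).comp (ev S j))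

theorem ev_le (j : ℕ) (x : S.X) : ‖ev S j x‖ ≤ ‖x‖ :=
  lp.norm_apply_le_norm (by norm_num) x j

theorem un_le (j : ℕ) (x : S.XJ j) : ‖unL S j x‖ ≤ ‖x‖ := (S.good j).lower _

theorem P_le (j : ℕ) (x : S.X) : ‖P S j x‖ ≤ ‖x‖ :=
  (fst_le _).trans ((un_le S j _).trans (ev_le S j x))

theorem Q_le (j : ℕ) (x : S.X) : ‖Q S j x‖ ≤ ‖x‖ :=
  (snd_le _).trans ((un_le S j _).trans (ev_le S j x))

/-- The subspace. -/
noncomputable def Z : Submodule ℝ S.X := ⨅ j, LinearMap.ker (Q S j - P S (j + 1))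

theorem mem_Z (x : S.X) : x ∈ Z S ↔ ∀ j, Q S j x = P S (j + 1) x := by
  simp only [Z, Submodule.mem_iInf, LinearMap.mem_ker, LinearMap.sub_apply, sub_eq_zero]

theorem Z_closed : IsClosed (Z S : Set S.X) := by
  have h : (Z S : Set S.X) = ⋂ j, {x | Q S j x = P S (j + 1) x} := by
    ext x
    simp only [SetLike.mem_coe, mem_Z, Set.mem_iInter, Set.mem_ofPred_eq]
  rw [h]
  refine isClosed_iInter (fun j => isClosed_eq ?_ ?_)
  · exact (LinearMap.mkContinuous (Q S j) 1 (fun x => by simpa using Q_le S j x)).continuous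
  · exact (LinearMap.mkContinuous (P S (j+1)) 1 (fun x => by simpa using P_le S (j+1) x)).continuous

/-- Components of `io j a`. -/
noncomputable def ioF (j : ℕ) (a : Eu (S.Fr.N j)) (i : ℕ) : S.XJ i :=
  NS.of _ _ (pair (tr S.Fr j i a) (tr S.Fr j (i + 1) a))

theorem ioF_zero {j i : ℕ} (a : Eu (S.Fr.N j)) (h1 : j ≠ i) (h2 : j ≠ i + 1) :
    ioF S j a i = 0 := by
  have : (pair (tr S.Fr j i a) (tr S.Fr j (i + 1) a) : EuclideanSpace ℝ (Ix S.Fr i)) = 0 := by
    rw [tr_ne h1, tr_ne h2, pair_zero]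
  exact this

theorem ioF_mem (j : ℕ) (a : Eu (S.Fr.N j)) : Memℓp (ioF S j a) 2 := by
  apply memℓp_gen
  apply summable_of_hasFiniteSupport
  apply (Set.finite_le_nat j).subset
  intro i hi
  simp only [Set.mem_ofPred_eq]
  by_contra hc
  apply hi
  show ‖ioF S j a i‖ ^ (2 : ENNReal).toReal = 0
  rw [ioF_zero S a (by omega) (by omega), norm_zero]
  simp

/-- The embedding into `X`. -/
noncomputable def ioX (j : ℕ) : Eu (S.Fr.N j) →ₗ[ℝ] S.X where
  toFun a := ⟨ioF S j a, ioF_mem S j a⟩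
  map_add' a b := by
    apply Subtype.ext
    funext i
    show ioF S j (a + b) i = ioF S j a i + ioF S j b i
    have h : (pair (tr S.Fr j i (a + b)) (tr S.Fr j (i + 1) (a + b)) : EuclideanSpace ℝ (Ix S.Fr i))
      = pair (tr S.Fr j i a) (tr S.Fr j (i + 1) a) + pair (tr S.Fr j i b) (tr S.Fr j (i + 1) b) := by
      rw [map_add, map_add, pair_add]
    exact h
  map_smul' c a := by
    apply Subtype.ext
    funext i
    show ioF S j (c • a) i = c • ioF S j a i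
    have h : (pair (tr S.Fr j i (c • a)) (tr S.Fr j (i + 1) (c • a)) : EuclideanSpace ℝ (Ix S.Fr i))
      = c • pair (tr S.Fr j i a) (tr S.Fr j (i + 1) a) := by
      rw [map_smul, map_smul, pair_smul]
    exact h

theorem un_io (j i : ℕ) (a : Eu (S.Fr.N j)) : unL S i (ev S i (ioX S j a)) =
    pair (tr S.Fr j i a) (tr S.Fr j (i + 1) a) := rfl

theorem P_io (j i : ℕ) (a : Eu (S.Fr.N j)) : P S i (ioX S j a) = tr S.Fr j i a := by
  show fst S.Fr i (unL S i (ev S i (ioX S j a))) = _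
  rw [un_io, fst_pair]

theorem Q_io (j i : ℕ) (a : Eu (S.Fr.N j)) : Q S i (ioX S j a) = tr S.Fr j (i + 1) a := by
  show snd S.Fr i (unL S i (ev S i (ioX S j a))) = _
  rw [un_io, snd_pair]

theorem io_mem (j : ℕ) (a : Eu (S.Fr.N j)) : ioX S j a ∈ Z S := by
  rw [mem_Z]
  intro i
  rw [P_io, Q_io]

theorem norm_sq_X (x : S.X) : ‖x‖ ^ 2 = ∑' i, (S.p i (unL S i (ev S i x))) ^ 2 := by
  have h := lp.norm_rpow_eq_tsum (p := 2) (by norm_num) x
  have h2 : ((2 : ENNReal).toReal) = ((2 : ℕ) : ℝ) := by norm_num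
  rw [h2] at h
  simp only [Real.rpow_natCast] at h
  exact h

theorem norm_sq_le (x : S.X) (s : Finset ℕ) (h : ∀ i ∉ s, ev S i x = 0) :
    ‖x‖ ^ 2 = ∑ i ∈ s, (S.p i (unL S i (ev S i x))) ^ 2 := by
  rw [norm_sq_X]
  apply tsum_eq_sum
  intro i hi
  rw [h i hi, map_zero, map_zero]
  norm_num

theorem upper (i : ℕ) (x : EuclideanSpace ℝ (Ix S.Fr i)) : (S.p i x) ^ 2 ≤ 2 ^ i * ‖x‖ ^ 2 := by
  have h := (S.good i).upper x
  rwa [S.β_pow i] at h

theorem io_norm (j : ℕ) (a : Eu (S.Fr.N j)) : ‖ioX S j a‖ ^ 2 ≤ 2 ^ (j + 1) * ‖a‖ ^ 2 := by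
  have ha : 0 ≤ ‖a‖ ^ 2 := sq_nonneg _
  rcases j with _ | k
  · have h1 := norm_sq_le S (ioX S 0 a) {0} (by
      intro i hi
      simp only [Finset.mem_singleton] at hi
      exact ioF_zero S a (by omega) (by omega))
    rw [h1, Finset.sum_singleton]
    have h2 := upper S 0 (unL S 0 (ev S 0 (ioX S 0 a)))
    have h3 : ‖unL S 0 (ev S 0 (ioX S 0 a))‖ ^ 2 = ‖a‖ ^ 2 := by
      rw [norm_sq_eq, un_io, fst_pair, snd_pair, tr_self, tr_ne (by omega)]
      simp
    rw [h3] at h2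
    refine h2.trans ?_
    have : (2 : ℝ) ^ 0 ≤ 2 ^ (0 + 1) := by norm_num
    exact mul_le_mul_of_nonneg_right this ha
  · have h1 := norm_sq_le S (ioX S (k + 1) a) {k, k + 1} (by
      intro i hi
      simp only [Finset.mem_insert, Finset.mem_singleton, not_or] at hi
      exact ioF_zero S a (by omega) (by omega))
    rw [h1, Finset.sum_pair (by omega)]
    have h2 := upper S k (unL S k (ev S k (ioX S (k + 1) a)))
    have h3 : ‖unL S k (ev S k (ioX S (k + 1) a))‖ ^ 2 = ‖a‖ ^ 2 := by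
      rw [norm_sq_eq, un_io, fst_pair, snd_pair, tr_self, tr_ne (by omega)]
      simp
    have h4 := upper S (k + 1) (unL S (k + 1) (ev S (k + 1) (ioX S (k + 1) a)))
    have h5 : ‖unL S (k + 1) (ev S (k + 1) (ioX S (k + 1) a))‖ ^ 2 = ‖a‖ ^ 2 := by
      rw [norm_sq_eq, un_io, fst_pair, snd_pair, tr_self, tr_ne (by omega)]
      simp
    rw [h3] at h2
    rw [h5] at h4
    have h6 : (2 : ℝ) ^ (k + 1) = 2 * 2 ^ k := by ring
    have h7 : (2 : ℝ) ^ (k + 1 + 1) = 4 * 2 ^ k := by ring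
    have h8 : (0 : ℝ) ≤ 2 ^ k * ‖a‖ ^ 2 := by positivity
    rw [h6] at h4
    rw [h7]
    nlinarith

theorem small1 (k : ℕ) (l : Fin (S.Fr.Lc (k + 1))) :
    S.p k (pair 0 (S.Fr.y (k + 1) l)) ≤ 2 := by
  apply (S.good k).small
  · rw [norm_sq_eq, fst_pair, snd_pair, S.Fr.norm_y]
    norm_num
  · intro i
    rw [inner_eq, phi, fst_pair, snd_pair, fst_pair, snd_pair, inner_zero_right, zero_add,
      inner_neg_left, abs_neg, real_inner_comm]
    refine le_trans ?_ (S.Fr.cross k l i)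
    apply mul_le_mul_of_nonneg_right _ (abs_nonneg _)
    apply pow_le_pow_right₀ (by norm_num)
    exact Nat.pow_le_pow_right (by norm_num) (by omega)

theorem small2 (k : ℕ) (l : Fin (S.Fr.Lc k)) :
    S.p k (pair (S.Fr.y k l) (S.Fr.z k l)) ≤ 2 := by
  apply (S.good k).small
  · rw [norm_sq_eq, fst_pair, snd_pair, S.Fr.norm_y, S.Fr.norm_z]
    norm_num
  · intro i
    rw [inner_eq, phi, fst_pair, snd_pair, fst_pair, snd_pair, inner_neg_left, ← sub_eq_add_neg]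
    exact S.Fr.coh k i l

theorem small3 (k : ℕ) (l : Fin (S.Fr.Lc k)) :
    S.p (k + 1) (pair (S.Fr.z k l) 0) ≤ 2 := by
  apply (S.good (k + 1)).small
  · rw [norm_sq_eq, fst_pair, snd_pair, S.Fr.norm_z]
    norm_num
  · intro i
    rw [inner_eq, phi, fst_pair, snd_pair, fst_pair, snd_pair, inner_zero_right, add_zero]
    exact S.Fr.cross k i l

theorem p_sq_le {i : ℕ} {v : EuclideanSpace ℝ (Ix S.Fr i)} (h : S.p i v ≤ 2) :
    (S.p i v) ^ 2 ≤ 4 := by
  have h0 : 0 ≤ S.p i v := apply_nonneg _ _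
  nlinarith

theorem un_u (j i : ℕ) (l : Fin (S.Fr.Lc j)) :
    unL S i (ev S i (ioX S j (S.Fr.y j l) + ioX S (j + 1) (S.Fr.z j l))) =
    pair (tr S.Fr j i (S.Fr.y j l) + tr S.Fr (j + 1) i (S.Fr.z j l))
      (tr S.Fr j (i + 1) (S.Fr.y j l) + tr S.Fr (j + 1) (i + 1) (S.Fr.z j l)) := by
  rw [map_add, map_add, un_io, un_io, pair_add]

theorem u_norm (j : ℕ) (l : Fin (S.Fr.Lc j)) :
    ‖ioX S j (S.Fr.y j l) + ioX S (j + 1) (S.Fr.z j l)‖ ≤ 4 := by
  have key : ‖ioX S j (S.Fr.y j l) + ioX S (j + 1) (S.Fr.z j l)‖ ^ 2 ≤ 12 := by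
    have hj : (S.p j (unL S j (ev S j (ioX S j (S.Fr.y j l) + ioX S (j + 1) (S.Fr.z j l))))) ^ 2
        ≤ 4 := by
      apply p_sq_le
      rw [un_u, tr_self, tr_self, tr_ne (by omega), tr_ne (by omega), add_zero, zero_add]
      exact small2 S j l
    have hj1 : (S.p (j + 1) (unL S (j + 1) (ev S (j + 1)
        (ioX S j (S.Fr.y j l) + ioX S (j + 1) (S.Fr.z j l))))) ^ 2 ≤ 4 := by
      apply p_sq_le
      rw [un_u, tr_self, tr_ne (by omega), tr_ne (by omega), tr_ne (by omega), add_zero, zero_add]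
      exact small3 S j l
    rcases j with _ | k
    · have h1 := norm_sq_le S (ioX S 0 (S.Fr.y 0 l) + ioX S (0 + 1) (S.Fr.z 0 l)) {0, 0 + 1} (by
        intro i hi
        simp only [Finset.mem_insert, Finset.mem_singleton, not_or] at hi
        have a1 : ev S i (ioX S 0 (S.Fr.y 0 l)) = 0 := ioF_zero S _ (by omega) (by omega)
        have a2 : ev S i (ioX S (0 + 1) (S.Fr.z 0 l)) = 0 := ioF_zero S _ (by omega) (by omega)
        rw [map_add, a1, a2, add_zero])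
      rw [h1, Finset.sum_pair (by omega)]
      linarith
    · have h1 := norm_sq_le S (ioX S (k + 1) (S.Fr.y (k + 1) l)
          + ioX S (k + 1 + 1) (S.Fr.z (k + 1) l)) {k, k + 1, k + 1 + 1} (by
        intro i hi
        simp only [Finset.mem_insert, Finset.mem_singleton, not_or] at hi
        have a1 : ev S i (ioX S (k + 1) (S.Fr.y (k + 1) l)) = 0 :=
          ioF_zero S _ (by omega) (by omega)
        have a2 : ev S i (ioX S (k + 1 + 1) (S.Fr.z (k + 1) l)) = 0 :=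
          ioF_zero S _ (by omega) (by omega)
        rw [map_add, a1, a2, add_zero])
      rw [h1, Finset.sum_insert (by
        simp only [Finset.mem_insert, Finset.mem_singleton, not_or]
        omega), Finset.sum_pair (by omega)]
      have hk : (S.p k (unL S k (ev S k (ioX S (k + 1) (S.Fr.y (k + 1) l)
          + ioX S (k + 1 + 1) (S.Fr.z (k + 1) l))))) ^ 2 ≤ 4 := by
        apply p_sq_le
        rw [un_u, tr_self, tr_ne (by omega), tr_ne (by omega), tr_ne (by omega), add_zero, add_zero]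
        exact small1 S k l
      linarith
  have h0 := norm_nonneg (ioX S j (S.Fr.y j l) + ioX S (j + 1) (S.Fr.z j l))
  nlinarith

theorem func_bd (j : ℕ) (l : Fin (S.Fr.Lc j)) (x : S.X) (hx : x ∈ Z S) :
    (⟪S.Fr.y j l, P S j x⟫_ℝ - ⟪S.Fr.z j l, P S (j + 1) x⟫_ℝ) ^ 2 * 2 ^ j ≤ 3 * ‖x‖ ^ 2 := by
  rw [← (mem_Z S x).mp hx j]
  have h1 : ⟪S.Fr.y j l, P S j x⟫_ℝ - ⟪S.Fr.z j l, Q S j x⟫_ℝ
      = ⟪phi S.Fr j l, unL S j (ev S j x)⟫_ℝ := by
    rw [inner_eq, phi, fst_pair, snd_pair, inner_neg_left, ← sub_eq_add_neg]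
    rfl
  rw [h1]
  have h2 := (S.good j).func l (unL S j (ev S j x))
  rw [S.β_pow j] at h2
  refine h2.trans ?_
  have h3 : S.p j (unL S j (ev S j x)) ≤ ‖x‖ := ev_le S j x
  have h4 : 0 ≤ S.p j (unL S j (ev S j x)) := apply_nonneg _ _
  nlinarith

end EMB

open EMB in
/-- Block EMB. -/
theorem stmt_Emb : Stmt_Emb := by
  intro S
  refine ⟨Z S, Z_closed S, fun j => (ioX S j).codRestrict (Z S) (io_mem S j),
    fun j => (P S j).comp (Z S).subtype, ?_, ?_, ?_, ?_, ?_⟩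
  · intro j a
    show P S j (ioX S j a) = a
    rw [P_io, tr_self]
  · intro j x
    exact P_le S j x
  · intro j a
    exact io_norm S j a
  · intro j l
    exact u_norm S j l
  · intro j l x
    exact func_bd S j l x x.2

end Pool.HAP
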